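import Pool.Agent.Helper40.KZ.Defs

/-!
PROJECT KZ, module KZ-7. Every Lyndon word is a leading word of an iterated bracket (`SW`).

Order on lists: `List.instLinearOrder`, i.e. `<` is `List.Lex (· < ·)` (a proper prefix is smaller).
Facts: (a) if `x < y` and `x` is not a prefix of `y` (e.g. `y.length ≤ x.length`) then `x ++ p < y ++ q` for all `p q` (they differ at a letter inside both); (b) `x ++ p < x ++ q ↔ p < q`.
`sw_of_lyn`: strong induction on the length. If `w = [a]`: `SW.letter`. Otherwise let `b` be the lexicographically smallest proper nonempty suffix of `w` (finitely many suffixes, `w.tails`), `w = a ++ b`, `a ≠ []`, `b ≠ []`.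
 * `b` is Lyndon: a proper nonempty suffix `y` of `b` is a proper suffix of `w`, so `b ≤ y`, and `b ≠ y` by length.
 * `a ++ b < b ++ a`: `w < b` as `w` is Lyndon, `b` shorter than `w`, so by (a) `w ++ [] < b ++ a`.
 * `a` is Lyndon: let `x` be a proper nonempty suffix of `a`, and suppose `x ≤ a`, so `x < a` (lengths). `x ++ b` is a proper suffix of `w`, so `a ++ b < x ++ b`. If `x` is not a prefix of `a` then (a) gives `x ++ b < a ++ b`,
   contradiction. So `a = x ++ y`, `y ≠ []`, and `a ++ b = x ++ (y ++ b) < x ++ b`, so `y ++ b < b` by (b). But `y ++ b` is a proper nonempty suffix of `w` (as `x ≠ []`), so `b ≤ y ++ b`. Contradiction.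
Then `SW.lie a b`.
-/

set_option autoImplicit false

namespace Pool.Agent.Helper40.KZ

variable {α : Type*} [LinearOrder α]

theorem lt_append_of_not_prefix (x y p q : List α) (h : x < y) (hp : ¬ x <+: y) :
    x ++ p < y ++ q := by
  induction x generalizing y with
  | nil => exact absurd (List.nil_prefix) hp
  | cons a x ih =>
    cases y with
    | nil => exact absurd h (by simp)
    | cons b y =>
      rw [List.cons_lt_cons_iff] at h
      rw [List.cons_append, List.cons_append, List.cons_lt_cons_iff]
      rcases h with h | ⟨rfl, h⟩
      · exact Or.inl h
      · refine Or.inr ⟨rfl, ih y h ?_⟩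
        intro hxy
        exact hp (by simpa using hxy)

theorem append_lt_cancel (x p q : List α) (h : x ++ p < x ++ q) : p < q := by
  induction x with
  | nil => simpa using h
  | cons a x ih =>
    rw [List.cons_append, List.cons_append, List.cons_lt_cons_iff] at h
    rcases h with h | ⟨_, h⟩
    · exact absurd h (lt_irrefl a)
    · exact ih h

theorem lt_append_of_lt (x y p q : List α) (h : x < y) (hl : y.length ≤ x.length) : x ++ p < y ++ q := by
  apply lt_append_of_not_prefix x y p q h
  intro hp
  have : x = y := hp.eq_of_length_le hl
  exact absurd h (this ▸ lt_irrefl x)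

theorem sw_of_lyn_aux (n : ℕ) : ∀ w : List α, w.length = n → Lyn w → SW w := by
  induction n using Nat.strong_induction_on with
  | _ n ih =>
    intro w hn h
    obtain ⟨hne, hlt⟩ := h
    by_cases h1 : w.length = 1
    · obtain ⟨a, rfl⟩ := List.length_eq_one_iff.1 h1
      exact SW.letter a
    · have h0 : 0 < w.length := List.length_pos_iff.2 hne
      have h2 : 2 ≤ w.length := by omega
      let S : Set (List α) := {v | v ≠ [] ∧ ∃ u, u ≠ [] ∧ w = u ++ v}
      have hfin : S.Finite := by
        apply Set.Finite.subset (List.finite_toSet w.tails)
        rintro v ⟨_, u, _, hw⟩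
        exact (List.mem_tails _ _).2 ⟨u, hw.symm⟩
      have hSne : S.Nonempty := by
        refine ⟨w.drop 1, ?_, w.take 1, ?_, (List.take_append_drop 1 w).symm⟩
        · intro hd
          have := congrArg List.length hd
          rw [List.length_drop] at this
          simp at this
          omega
        · intro hd
          have := congrArg List.length hd
          rw [List.length_take, List.length_nil] at this
          omega
      obtain ⟨b, ⟨hb, a, ha, hw⟩, hmin⟩ := Set.exists_min_image S id hfin hSne
      have hmin' : ∀ v u : List α, v ≠ [] → u ≠ [] → w = u ++ v → b ≤ v := by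
        intro v u hv hu hvu
        exact hmin v ⟨hv, u, hu, hvu⟩
      have hla : 0 < a.length := List.length_pos_iff.2 ha
      have hlb : 0 < b.length := List.length_pos_iff.2 hb
      have hlw : w.length = a.length + b.length := by rw [hw, List.length_append]
      have hwb : w < b := hlt a b ha hb hw
      have hab : a ++ b < b ++ a := by
        have := lt_append_of_lt w b [] a hwb (by omega)
        rw [List.append_nil] at this
        rw [← hw]
        exact this
      have hbL : Lyn b := by
        refine ⟨hb, fun u v hu hv huv => ?_⟩
        have hle : b ≤ v := hmin' v (a ++ u) hv (by simp [hu]) (by rw [hw, huv, List.append_assoc])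
        have hne' : b ≠ v := by
          intro he
          have hl := congrArg List.length huv
          rw [List.length_append, ← he] at hl
          have : 0 < u.length := List.length_pos_iff.2 hu
          omega
        exact lt_of_le_of_ne hle hne'
      have haL : Lyn a := by
        refine ⟨ha, fun u x hu hx hux => ?_⟩
        by_contra hcon
        have hlu : 0 < u.length := List.length_pos_iff.2 hu
        have hlx : 0 < x.length := List.length_pos_iff.2 hx
        have hlux : a.length = u.length + x.length := by rw [hux, List.length_append]
        have hxa : x < a := by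
          refine lt_of_le_of_ne (not_lt.1 hcon) ?_
          intro he
          rw [← he] at hlux
          omega
        have h3 : w < x ++ b := hlt u (x ++ b) hu (by simp [hx]) (by rw [hw, hux, List.append_assoc])
        by_cases hp : x <+: a
        · obtain ⟨y, hy⟩ := hp
          rw [hw, ← hy, List.append_assoc] at h3
          have h4 : y ++ b < b := append_lt_cancel x _ _ h3
          have h5 : b ≤ y ++ b := by
            refine hmin' (y ++ b) x ?_ hx ?_
            · simp [hb]
            · rw [hw, ← hy, List.append_assoc]
          exact absurd h4 (not_lt.2 h5)
        · have h4 := lt_append_of_not_prefix x a b b hxa hp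
          rw [← hw] at h4
          exact absurd h3 (not_lt.2 h4.le)
      have hSa : SW a := ih a.length (by omega) a rfl haL
      have hSb : SW b := ih b.length (by omega) b rfl hbL
      rw [hw]
      exact SW.lie a b hSa hSb hab

theorem sw_of_lyn (w : List α) (h : Lyn w) : SW w :=
  sw_of_lyn_aux w.length w rfl h

end Pool.Agent.Helper40.KZ
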