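import Pool.Agent.Helper40.KZ.Defs

/-!
PROJECT KZ, module KZ-10. Leading words.

`Lead K a w T` says that `T` is the operator of `w` plus a combination of operators of larger words of the same length.
`op_append`: `List.map_append`, `List.prod_append`.
`up_mul_left`: `x ∈ Up K a w → op a u * x ∈ Up K a (u ++ w)`: `Submodule.span_induction` (`List.append_left_lt`: `u ++ w < u ++ w'`).
`up_mul_right`: `x ∈ Up K a w → x * op a u ∈ Up K a (w ++ u)`: `w < w'` of equal lengths gives `w ++ u < w' ++ u` (they differ at a letter).
`up_mul_up`: products of elements of `Up K a w` and `Up K a v` are in `Up K a (w ++ v)` (`w < w'`, equal lengths gives `w ++ v < w' ++ v'` for all `v'`).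
`lead_mul`: `T = op w + x`, `S = op v + y`: `T S = op (w v) + (op w) y + x (op v) + x y`.
`lead_sub`: if `Lead K a (u ++ v) T`, `Lead K a (v ++ u) S` and `u ++ v < v ++ u` then `Lead K a (u ++ v) (T - S)`: `S ∈ Up K a (u ++ v)` by transitivity of `<`.
`up_mono`: `w < w'`, equal lengths: `Up K a w' ≤ Up K a w`.
-/

set_option autoImplicit false

namespace Pool.Agent.Helper40.KZ

variable {α K A : Type*} [LinearOrder α] [Field K] [Ring A] [Algebra K A]

/-- `T` has leading word `w`. -/
def Lead (K : Type*) {A : Type*} [Field K] [Ring A] [Algebra K A] (a : α → A) (w : List α) (T : A) : Prop :=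
  T - op a w ∈ Up K a w

theorem op_append (a : α → A) (u v : List α) : op a (u ++ v) = op a u * op a v := by
  simp [op]

theorem lt_append_of_lt_of_length (x y p q : List α) (h : x < y) (hl : x.length = y.length) : x ++ p < y ++ q := by
  induction x generalizing y with
  | nil =>
    cases y with
    | nil => exact absurd h (lt_irrefl _)
    | cons b y => simp at hl
  | cons c x ih =>
    cases y with
    | nil => simp at hl
    | cons b y =>
      rw [List.cons_append, List.cons_append, List.cons_lt_cons_iff]
      rw [List.cons_lt_cons_iff] at h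
      rcases h with h | ⟨h1, h2⟩
      · exact Or.inl h
      · exact Or.inr ⟨h1, ih y h2 (by simpa using hl)⟩

theorem up_mono (a : α → A) (w w' : List α) (hl : w.length = w'.length) (h : w < w') : Up K a w' ≤ Up K a w := by
  refine Submodule.span_mono ?_
  rintro x ⟨w'', h1, h2, rfl⟩
  exact ⟨w'', h1.trans hl.symm, h.trans h2, rfl⟩

theorem up_mul_left (a : α → A) (u w : List α) (x : A) (h : x ∈ Up K a w) : op a u * x ∈ Up K a (u ++ w) := by
  unfold Up at h ⊢
  induction h using Submodule.span_induction with
  | mem x hx =>
    obtain ⟨w', h1, h2, rfl⟩ := hx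
    refine Submodule.subset_span ⟨u ++ w', by simp [h1], ?_, (op_append a u w').symm⟩
    exact List.append_left_lt h2
  | zero => rw [mul_zero]; exact zero_mem _
  | add x y _ _ hx hy => rw [mul_add]; exact add_mem hx hy
  | smul c x _ hx => rw [mul_smul_comm]; exact Submodule.smul_mem _ _ hx

theorem up_mul_right (a : α → A) (u w : List α) (x : A) (h : x ∈ Up K a w) : x * op a u ∈ Up K a (w ++ u) := by
  unfold Up at h ⊢
  induction h using Submodule.span_induction with
  | mem x hx =>
    obtain ⟨w', h1, h2, rfl⟩ := hx
    refine Submodule.subset_span ⟨w' ++ u, by simp [h1], ?_, (op_append a w' u).symm⟩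
    exact lt_append_of_lt_of_length _ _ _ _ h2 h1.symm
  | zero => rw [zero_mul]; exact zero_mem _
  | add x y _ _ hx hy => rw [add_mul]; exact add_mem hx hy
  | smul c x _ hx => rw [smul_mul_assoc]; exact Submodule.smul_mem _ _ hx

theorem up_mul_up (a : α → A) (w v : List α) (x y : A) (hx : x ∈ Up K a w) (hy : y ∈ Up K a v) :
    x * y ∈ Up K a (w ++ v) := by
  unfold Up at hx
  induction hx using Submodule.span_induction with
  | mem x hx =>
    obtain ⟨w', h1, h2, rfl⟩ := hx
    have h3 := up_mul_left a w' v y hy
    refine up_mono a (w ++ v) (w' ++ v) (by simp [h1]) ?_ h3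
    exact lt_append_of_lt_of_length _ _ _ _ h2 h1.symm
  | zero => rw [zero_mul]; exact zero_mem _
  | add x y _ _ hx hy => rw [add_mul]; exact add_mem hx hy
  | smul c x _ hx => rw [smul_mul_assoc]; exact Submodule.smul_mem _ _ hx

theorem lead_letter (a : α → A) (i : α) : Lead K a [i] (a i) := by
  unfold Lead
  have h : op a [i] = a i := by simp [op]
  rw [h, sub_self]
  exact zero_mem _

theorem lead_mul (a : α → A) (w v : List α) (T S : A) (hT : Lead K a w T) (hS : Lead K a v S) :
    Lead K a (w ++ v) (T * S) := by
  unfold Lead at hT hS ⊢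
  have h : T * S - op a (w ++ v) =
      op a w * (S - op a v) + (T - op a w) * op a v + (T - op a w) * (S - op a v) := by
    rw [op_append]
    noncomm_ring
  rw [h]
  exact add_mem (add_mem (up_mul_left a w v _ hS) (up_mul_right a v w _ hT))
    (up_mul_up a w v _ _ hT hS)

theorem lead_sub (a : α → A) (u v : List α) (T S : A) (hT : Lead K a (u ++ v) T) (hS : Lead K a (v ++ u) S)
    (h : u ++ v < v ++ u) : Lead K a (u ++ v) (T - S) := by
  unfold Lead at hT hS ⊢
  have h1 : T - S - op a (u ++ v) =
      (T - op a (u ++ v)) - ((S - op a (v ++ u)) + op a (v ++ u)) := by abel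
  rw [h1]
  have hl : (u ++ v).length = (v ++ u).length := by simp [Nat.add_comm]
  refine sub_mem hT (add_mem (up_mono a _ _ hl h hS) ?_)
  exact Submodule.subset_span ⟨v ++ u, hl.symm, h, rfl⟩

end Pool.Agent.Helper40.KZ
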