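import Pool.Agent.Helper40.KZ.Sand
import Pool.Agent.Helper40.KZ.Lead
import Pool.Agent.Helper40.KZ.Factor

/-!
PROJECT KZ, module KZ-11. Words with unavoidable factors vanish.

Here `a : α → L`, operators `fun i => ad (a i)` in `Module.End K L`.
`exists_bracket`: induction on `SW w`: letter: `b = a i`, `lead_letter`. `SW.lie u v`: `b = ⁅b u, b v⁆`: `sand_lie`; `ad ⁅x, y⁆ = ad x * ad y - ad y * ad x`, `lead_mul` twice, `lead_sub`.
`red_up`: `w = l ++ (v ++ (m ++ (v ++ r)))` with `v` Lyndon, `m` empty or Lyndon. `T = ad (b v) * ad (b m) * ad (b v)` (or `ad (b v) * ad (b v)` if `m = []`) is `0` by `sand_mid` (or by the square), and has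
leading word `v ++ (m ++ v)`. So `op (v ++ (m ++ v)) ∈ Up`, and by `up_mul_left`, `up_mul_right`, `op_append`: `op w ∈ Up w`.
`op_zero`: `hN : every word of length N is Red`. Descending induction: if some `op w ≠ 0` with `w.length = N`, choose the largest such `w` (finitely many words of length `N` over a finite alphabet: `List.finite_length_eq`);
`op w ∈ Up w = span of op w'`, `w' > w` of length `N`, all `0`, so `op w = 0`.
-/

set_option autoImplicit false

namespace Pool.Agent.Helper40.KZ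

variable {α K L : Type*} [LinearOrder α] [Field K] [LieRing L] [LieAlgebra K L]

private theorem ad_lie_van (x y : L) : LieAlgebra.ad K L ⁅x, y⁆ =
    LieAlgebra.ad K L x * LieAlgebra.ad K L y - LieAlgebra.ad K L y * LieAlgebra.ad K L x := by
  refine LinearMap.ext fun z => ?_
  simp only [LieAlgebra.ad_apply, LinearMap.sub_apply, Module.End.mul_apply]
  exact lie_lie x y z

theorem exists_bracket (h2 : (2 : K) ≠ 0) (a : α → L)
    (ha : ∀ i, LieAlgebra.ad K L (a i) * LieAlgebra.ad K L (a i) = 0) (w : List α) (hw : SW w) :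
    ∃ b : L, LieAlgebra.ad K L b * LieAlgebra.ad K L b = 0 ∧
      Lead K (fun i => LieAlgebra.ad K L (a i)) w (LieAlgebra.ad K L b) := by
  induction hw with
  | letter i => exact ⟨a i, ha i, lead_letter _ i⟩
  | lie u v _ _ h ihu ihv =>
    obtain ⟨b, hb, hb'⟩ := ihu
    obtain ⟨c, hc, hc'⟩ := ihv
    refine ⟨⁅b, c⁆, sand_lie h2 b c hb hc, ?_⟩
    rw [ad_lie_van]
    exact lead_sub _ u v _ _ (lead_mul _ u v _ _ hb' hc') (lead_mul _ v u _ _ hc' hb') h

private theorem up_of_lead_zero {A : Type*} [Ring A] [Algebra K A] (a : α → A) (w : List α)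
    (T : A) (h : Lead K a w T) (hT : T = 0) : op a w ∈ Up K a w := by
  unfold Lead at h
  rw [hT, zero_sub] at h
  have h1 := neg_mem h
  rwa [neg_neg] at h1

theorem red_up (h2 : (2 : K) ≠ 0) (a : α → L)
    (ha : ∀ i, LieAlgebra.ad K L (a i) * LieAlgebra.ad K L (a i) = 0) (w : List α) (hw : Red w) :
    op (fun i => LieAlgebra.ad K L (a i)) w ∈ Up K (fun i => LieAlgebra.ad K L (a i)) w := by
  obtain ⟨l, v, m, r, hv, hm, rfl⟩ := hw
  obtain ⟨b, hb, hb'⟩ := exists_bracket h2 a ha v (sw_of_lyn v hv)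
  have key : op (fun i => LieAlgebra.ad K L (a i)) (v ++ (m ++ v)) ∈
      Up K (fun i => LieAlgebra.ad K L (a i)) (v ++ (m ++ v)) := by
    rcases hm with hm | hm
    · subst hm
      exact up_of_lead_zero _ _ _ (lead_mul _ v v _ _ hb' hb') hb
    · obtain ⟨c, hc, hc'⟩ := exists_bracket h2 a ha m (sw_of_lyn m hm)
      refine up_of_lead_zero _ _ _ (lead_mul _ v (m ++ v) _ _ hb' (lead_mul _ m v _ _ hc' hb')) ?_
      rw [← mul_assoc]
      exact sand_mid h2 b c hb
  have h3 := up_mul_left (K := K) (fun i => LieAlgebra.ad K L (a i)) l _ _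
    (up_mul_right (K := K) (fun i => LieAlgebra.ad K L (a i)) r _ _ key)
  rw [← op_append, ← op_append] at h3
  have h4 : l ++ (v ++ (m ++ v) ++ r) = l ++ (v ++ (m ++ (v ++ r))) := by
    simp only [List.append_assoc]
  rw [h4] at h3
  exact h3

theorem op_zero [Finite α] (h2 : (2 : K) ≠ 0) (a : α → L)
    (ha : ∀ i, LieAlgebra.ad K L (a i) * LieAlgebra.ad K L (a i) = 0) (N : ℕ)
    (hN : ∀ w : List α, w.length = N → Red w) (w : List α) (hw : w.length = N) :
    op (fun i => LieAlgebra.ad K L (a i)) w = 0 := by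
  by_contra hne
  have hfin : {w : List α | w.length = N ∧ op (fun i => LieAlgebra.ad K L (a i)) w ≠ 0}.Finite :=
    (List.finite_length_eq α N).subset fun x hx => hx.1
  obtain ⟨u, hu⟩ := hfin.exists_maximal ⟨w, hw, hne⟩
  obtain ⟨⟨hu1, hu2⟩, hu3⟩ := hu
  have h5 := red_up h2 a ha u (hN u hu1)
  refine hu2 ?_
  have h6 : Up K (fun i => LieAlgebra.ad K L (a i)) u ≤ ⊥ := by
    unfold Up
    rw [Submodule.span_le]
    rintro x ⟨w', h7, h8, rfl⟩
    by_contra h9
    have h10 : w' ∈ {w : List α | w.length = N ∧ op (fun i => LieAlgebra.ad K L (a i)) w ≠ 0} :=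
      ⟨h7.trans hu1, fun h => h9 (by rw [h]; exact zero_mem _)⟩
    exact absurd (hu3 h10 h8.le) (not_le.2 h8)
  exact (Submodule.mem_bot K).1 (h6 h5)

end Pool.Agent.Helper40.KZ
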