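import Pool.Agent.Helper40.KZ.Words

/-!
PROJECT KZ, module KZ-6. Compactness: minimal subshift and its least element.

`R` is a property of finite words (bad words) inherited by larger words.
`exists_inf`: give the finite set `α` the discrete topology (`letI : TopologicalSpace α := ⊥`, `DiscreteTopology`), `ℕ → α` is compact. `α` is nonempty (a word of length `≥ 1` exists). `C n = {x | ¬ R (fac x 0 n)}`
is closed (it depends on the finitely many coordinates `< n`: preimage of a set under a continuous map to a discrete space), nonempty (a word `w` of length `≥ n` with `¬ R w`, extended to an infinite word `x`: `w = fac x 0 w.length = fac x 0 n ++ ..`,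
use `hR`), decreasing. `IsCompact.nonempty_iInter_of_sequence_nonempty_isCompact_isClosed` gives `x` with `¬ R (fac x 0 n)` for all `n`, so `¬ R (fac x i n)` for all `i, n` (`fac x 0 (i + n) = fac x 0 i ++ fac x i n`).
`exists_minim`: shift `T x = fun n => x (n + 1)`, continuous. Zorn (`zorn_superset_nonempty` or `zorn_superset`) for the family of nonempty closed sets `X` with `∀ x ∈ X, T x ∈ X` contained in
`X₀ = {x | ∀ i n, ¬ R (fac x i n)}` (closed, `T`-stable, nonempty by `exists_inf`): the intersection of a nonempty chain is nonempty by compactness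
(`IsCompact.nonempty_sInter_of_directedOn_nonempty_isCompact_isClosed` or the `iInter` version). Let `X` be minimal.
Least element: `Y n = {x ∈ X | ∀ y ∈ X, fac x 0 n ≤ fac y 0 n}`: closed, nonempty (finitely many words of length `n`, choose the least; e.g. `Set.Finite` range and `Set.exists_min_image`), decreasing
(`fac x 0 (n+1) = fac x 0 n ++ [x n]`; if `fac y 0 n < fac x 0 n`, equal lengths, then `fac y 0 (n+1) < fac x 0 (n+1)`). A point `s` of the intersection satisfies `fac s 0 n ≤ fac y 0 n` for all `y ∈ X`, `n`.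
`Minim.le`: `y = T^t s ∈ X`, `fac y 0 (j+1) = fac s 0 j ++ [s (t + j)]` when the first `j` letters agree, so `s j ≤ s (t + j)`.
`Minim.recur`: the closure of `{T^t s | t ≥ 1}` is closed nonempty, `T`-stable, contained in `X`, so it is `X` and contains `s`; the set of `x` with `x i = s i` for `i < n` is an open neighbourhood of `s`,
so it contains some `T^t s`, `t ≥ 1`.
-/

set_option autoImplicit false

namespace Pool.Agent.Helper40.KZ

variable {α : Type*}

private theorem fac_getElem (s : ℕ → α) (i n k : ℕ) (h : k < (fac s i n).length) :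
    (fac s i n)[k] = s (i + k) := by
  simp [fac]

private theorem fac_ofFn (x : ℕ → α) (i n : ℕ) :
    fac x i n = List.ofFn (fun k : Fin n => x (i + k)) := by
  refine List.ext_getElem (by rw [fac_length, List.length_ofFn]) fun k h1 h2 => ?_
  rw [fac_getElem]
  simp

private theorem clopen_fac [TopologicalSpace α] [DiscreteTopology α] (i n : ℕ)
    (P : List α → Prop) : IsClopen {x : ℕ → α | P (fac x i n)} := by
  have hg : Continuous (fun (x : ℕ → α) (k : Fin n) => x (i + k)) :=
    continuous_pi fun k => continuous_apply _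
  have h := (isClopen_discrete {y : Fin n → α | P (List.ofFn y)}).preimage hg
  have he : {x : ℕ → α | P (fac x i n)} =
      (fun (x : ℕ → α) (k : Fin n) => x (i + k)) ⁻¹' {y : Fin n → α | P (List.ofFn y)} := by
    ext x
    simp only [Set.mem_ofPred_eq, Set.mem_preimage, fac_ofFn]
  rw [he]
  exact h

private theorem lt_app [LinearOrder α] : ∀ (u v a b : List α), u.length = v.length → u < v →
    u ++ a < v ++ b := by
  intro u
  induction u with
  | nil =>
    intro v a b h h1
    cases v with
    | nil => exact absurd h1 (lt_irrefl _)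
    | cons c v => simp at h
  | cons c u ih =>
    intro v a b h h1
    cases v with
    | nil => simp at h
    | cons d v =>
      rcases List.cons_lt_cons_iff.1 h1 with h2 | ⟨h2, h3⟩
      · exact List.cons_lt_cons_iff.2 (Or.inl h2)
      · exact List.cons_lt_cons_iff.2 (Or.inr ⟨h2, ih v a b (by simpa using h) h3⟩)

theorem exists_inf [Finite α] (R : List α → Prop) (hR : ∀ l w r, R w → R (l ++ (w ++ r)))
    (h : ∀ N : ℕ, ∃ w : List α, N ≤ w.length ∧ ¬ R w) : ∃ x : ℕ → α, ∀ i n, ¬ R (fac x i n) := by
  let _ : TopologicalSpace α := ⊥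
  have : DiscreteTopology α := ⟨rfl⟩
  have hne : Nonempty α := by
    obtain ⟨w, hw, _⟩ := h 1
    exact ⟨w[0]⟩
  have key : (⋂ n, {x : ℕ → α | ¬ R (fac x 0 n)}).Nonempty := by
    refine IsCompact.nonempty_iInter_of_sequence_nonempty_isCompact_isClosed _ (fun n x hx hn => ?_)
      (fun n => ?_) (isCompact_univ.of_isClosed_subset (clopen_fac 0 0 (fun w => ¬ R w)).1
        (Set.subset_univ _)) (fun n => (clopen_fac 0 n (fun w => ¬ R w)).1)
    · refine hx ?_
      rw [fac_add]
      have := hR [] (fac x 0 n) (fac x (0 + n) 1) hn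
      simpa using this
    · obtain ⟨w, hw, hRw⟩ := h n
      let x : ℕ → α := fun k => if hk : k < w.length then w[k] else Classical.choice hne
      have hx : fac x 0 w.length = w := by
        refine List.ext_getElem (fac_length _ _ _) fun k h1 h2 => ?_
        rw [fac_getElem]
        show (if hk : 0 + k < w.length then w[0 + k] else Classical.choice hne) = _
        rw [dif_pos (by omega)]
        simp
      refine ⟨x, fun hn => hRw ?_⟩
      obtain ⟨m, hm⟩ := Nat.exists_eq_add_of_le hw
      rw [← hx, hm, fac_add]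
      have := hR [] (fac x 0 n) (fac x (0 + n) m) hn
      simpa using this
  obtain ⟨x, hx⟩ := key
  refine ⟨x, fun i n hn => ?_⟩
  have h1 : ¬ R (fac x 0 (i + n)) := Set.mem_iInter.1 hx (i + n)
  apply h1
  rw [fac_add]
  have := hR (fac x 0 i) (fac x (0 + i) n) [] (by rwa [Nat.zero_add])
  simpa using this

private theorem fac_shift (s : ℕ → α) (t i n : ℕ) :
    fac (fun k => s (t + k)) i n = fac s (t + i) n :=
  fac_congr _ _ _ _ _ fun k _ => by rw [Nat.add_assoc]

theorem exists_minim [Finite α] [LinearOrder α] (R : List α → Prop) (hR : ∀ l w r, R w → R (l ++ (w ++ r)))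
    (h : ∀ N : ℕ, ∃ w : List α, N ≤ w.length ∧ ¬ R w) :
    ∃ s : ℕ → α, Minim s ∧ ∀ i n, ¬ R (fac s i n) := by
  let _ : TopologicalSpace α := ⊥
  have : DiscreteTopology α := ⟨rfl⟩
  have hcomp : ∀ X : Set (ℕ → α), IsClosed X → IsCompact X := fun X hX =>
    isCompact_univ.of_isClosed_subset hX (Set.subset_univ _)
  let X0 : Set (ℕ → α) := {x | ∀ i n, ¬ R (fac x i n)}
  have hX0c : IsClosed X0 := by
    have : X0 = ⋂ i, ⋂ n, {x : ℕ → α | ¬ R (fac x i n)} := by
      ext x
      simp [X0]
    rw [this]
    exact isClosed_iInter fun i => isClosed_iInter fun n => (clopen_fac i n (fun w => ¬ R w)).1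
  let T : (ℕ → α) → (ℕ → α) := fun x k => x (1 + k)
  have hT : Continuous T := continuous_pi fun k => continuous_apply _
  let S : Set (Set (ℕ → α)) := {X | X.Nonempty ∧ IsClosed X ∧ (∀ x ∈ X, T x ∈ X) ∧ X ⊆ X0}
  have hX0S : X0 ∈ S := by
    refine ⟨exists_inf R hR h, hX0c, fun x hx i n => ?_, subset_rfl⟩
    show ¬ R (fac (fun k => x (1 + k)) i n)
    rw [fac_shift]
    exact hx _ _
  obtain ⟨X, -, hXm⟩ := zorn_superset_nonempty S (fun c hcS hc hcn => by
    refine ⟨⋂₀ c, ⟨?_, isClosed_sInter fun U hU => (hcS hU).2.1, fun x hx U hU => (hcS hU).2.2.1 x (hx U hU),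
      fun x hx => ?_⟩, fun U hU => Set.sInter_subset_of_mem hU⟩
    · have : Nonempty c := hcn.to_subtype
      refine IsCompact.nonempty_sInter_of_directed_nonempty_isCompact_isClosed ?_
        (fun U hU => (hcS hU).1) (fun U hU => hcomp U (hcS hU).2.1) (fun U hU => (hcS hU).2.1)
      intro U hU V hV
      rcases hc.total hU hV with h1 | h1
      · exact ⟨U, hU, subset_rfl, h1⟩
      · exact ⟨V, hV, h1, subset_rfl⟩
    · obtain ⟨U, hU⟩ := hcn
      exact (hcS hU).2.2.2 (hx U hU)) X0 hX0S
  obtain ⟨⟨hXn, hXc, hXT, hXX0⟩, hmin⟩ := hXm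
  have key : (⋂ n, {x : ℕ → α | x ∈ X ∧ ∀ y ∈ X, fac x 0 n ≤ fac y 0 n}).Nonempty := by
    have hcl : ∀ n, IsClosed {x : ℕ → α | x ∈ X ∧ ∀ y ∈ X, fac x 0 n ≤ fac y 0 n} := fun n =>
      hXc.inter (clopen_fac 0 n (fun w => ∀ y ∈ X, w ≤ fac y 0 n)).1
    refine IsCompact.nonempty_iInter_of_sequence_nonempty_isCompact_isClosed _ (fun n x hx => ?_)
      (fun n => ?_) (hcomp _ (hcl 0)) hcl
    · refine ⟨hx.1, fun y hy => ?_⟩
      by_contra hlt
      have h1 := hx.2 y hy
      rw [fac_add, fac_add] at h1
      exact absurd (lt_app _ _ (fac y (0 + n) 1) (fac x (0 + n) 1)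
        (by rw [fac_length, fac_length]) (not_le.1 hlt)) (not_lt.2 h1)
    · have hfin : ((fun x : ℕ → α => fac x 0 n) '' X).Finite := by
        refine (Set.finite_range (fun y : Fin n → α => List.ofFn y)).subset ?_
        rintro _ ⟨x, -, rfl⟩
        exact ⟨fun k => x (0 + k), (fac_ofFn x 0 n).symm⟩
      obtain ⟨w, ⟨x, hx, rfl⟩, hw⟩ := Set.exists_min_image _ id hfin (hXn.image _)
      exact ⟨x, hx, fun y hy => hw _ ⟨y, hy, rfl⟩⟩
  obtain ⟨s, hs⟩ := key
  have hsX : s ∈ X := (Set.mem_iInter.1 hs 0).1
  have hsle : ∀ y ∈ X, ∀ n, fac s 0 n ≤ fac y 0 n := fun y hy n => (Set.mem_iInter.1 hs n).2 y hy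
  have hsh : ∀ t, (fun k => s (t + k)) ∈ X := by
    intro t
    induction t with
    | zero => simpa using hsX
    | succ t ih =>
      have := hXT _ ih
      have he : T (fun k => s (t + k)) = (fun k => s (t + 1 + k)) := by
        funext k
        show s (t + (1 + k)) = _
        rw [Nat.add_assoc]
      rwa [he] at this
  refine ⟨s, ⟨fun t j hj => ?_, fun n => ?_⟩, hXX0 hsX⟩
  · by_contra hlt
    have h1 := hsle _ (hsh t) (j + 1)
    have hc : fac s (t + 0) j = fac s 0 j :=
      fac_congr s s (t + 0) 0 j (fun k hk => by rw [Nat.add_zero, hj k hk, Nat.zero_add])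
    rw [fac_shift, fac_add, fac_add, fac_one, fac_one, hc, Nat.zero_add] at h1
    exact absurd (List.append_left_lt (List.Lex.rel (not_le.1 hlt))) (not_lt.2 h1)
  · let A : Set (ℕ → α) := {y | ∃ t, 1 ≤ t ∧ y = fun k => s (t + k)}
    have hZS : closure A ∈ S := by
      have hZX : closure A ⊆ X := closure_minimal (by
        rintro y ⟨t, -, rfl⟩
        exact hsh t) hXc
      refine ⟨⟨_, subset_closure ⟨1, le_rfl, rfl⟩⟩, isClosed_closure, fun x hx => ?_, hZX.trans hXX0⟩
      have h1 : T x ∈ closure (T '' A) := image_closure_subset_closure_image hT ⟨x, hx, rfl⟩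
      refine closure_mono ?_ h1
      rintro _ ⟨y, ⟨t, ht, rfl⟩, rfl⟩
      refine ⟨t + 1, by omega, ?_⟩
      funext k
      show s (t + (1 + k)) = _
      rw [Nat.add_assoc]
    have hZX : closure A ⊆ X := closure_minimal (by
        rintro y ⟨t, -, rfl⟩
        exact hsh t) hXc
    have hsZ : s ∈ closure A := hmin hZS hZX hsX
    obtain ⟨y, hy, ⟨t, ht, rfl⟩⟩ := mem_closure_iff.1 hsZ {x | fac x 0 n = fac s 0 n}
      (clopen_fac 0 n (fun w => w = fac s 0 n)).2 rfl
    refine ⟨t, ht, fun i hi => ?_⟩
    have h1 : fac s t n = fac s 0 n := by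
      have h2 : fac (fun k => s (t + k)) 0 n = fac s 0 n := hy
      rwa [fac_shift, Nat.add_zero] at h2
    have h3 : (fac s t n)[i]'(by rw [fac_length]; exact hi) =
        (fac s 0 n)[i]'(by rw [fac_length]; exact hi) := by
      simp only [h1]
    rwa [fac_getElem, fac_getElem, Nat.zero_add] at h3

end Pool.Agent.Helper40.KZ
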