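import Pool.Agent.Helper40.KZ.Defs

/-!
PROJECT KZ, module KZ-5. Dictionary between factors of infinite words and lists.

`fac_add`: `List.range'_append` and `List.map_append`. `fac_length`: `simp [fac]`. `fac_congr`: `List.ext_getElem` (letters of `fac s i n` are `s (i + k)`).
`lyn_fac`: let `LynF s i n`, `fac s i n = u ++ v`, `u, v ≠ []`, `r = u.length`, so `0 < r < n`, `u = fac s i r`, `v = fac s (i + r) (n - r)`. With `j` from `LynF`:
`fac s i n = fac s i j ++ s (i + j) :: rest`, `v = fac s (i + r) j ++ s (i + r + j) :: rest'` with `fac s (i + r) j = fac s i j`, so `fac s i n < v` (`List.append_left_lt`, and `List.Lex.rel` for the first letters).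
`red_mono`: `Red w → Red (l ++ (w ++ r))` clear (associate).
`np_of_red`: if no factor `fac s i n` is `Red` then `NP1`, `NP2`, `NP3`: a factor `v v` at `i` is `fac s i (n + n)`, `m = []`; `v c v`: `fac s i (n + (1 + n))` with `m = [s (i + n)]` (a one letter list is `Lyn`,
`lyn_singleton`: it is not a concatenation of two nonempty lists); `z u z`: `fac s i (1 + (n + 1))` with `v = [s i]`, `m = fac s (i+1) n`.
-/

set_option autoImplicit false

namespace Pool.Agent.Helper40.KZ

variable {α : Type*}

theorem fac_length (s : ℕ → α) (i n : ℕ) : (fac s i n).length = n := by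
  simp [fac]

theorem fac_add (s : ℕ → α) (i m n : ℕ) : fac s i (m + n) = fac s i m ++ fac s (i + m) n := by
  unfold fac
  rw [← List.range'_append_1, List.map_append]

theorem fac_one (s : ℕ → α) (i : ℕ) : fac s i 1 = [s i] := by
  simp [fac]

theorem fac_congr (s t : ℕ → α) (i j n : ℕ) (h : ∀ k < n, s (i + k) = t (j + k)) : fac s i n = fac t j n := by
  refine List.ext_getElem (by rw [fac_length, fac_length]) fun k h1 _ => ?_
  rw [fac_length] at h1
  simp [fac, h k h1]

theorem lyn_singleton [LinearOrder α] (a : α) : Lyn [a] := by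
  refine ⟨List.cons_ne_nil _ _, fun u v hu hv h => ?_⟩
  have h1 := congrArg List.length h
  rw [List.length_append, List.length_singleton] at h1
  have h2 := List.length_pos_of_ne_nil hu
  have h3 := List.length_pos_of_ne_nil hv
  omega

theorem lyn_fac [LinearOrder α] (s : ℕ → α) (i n : ℕ) (h : LynF s i n) : Lyn (fac s i n) := by
  refine ⟨fun h0 => ?_, fun u v hu hv huv => ?_⟩
  · have h1 := congrArg List.length h0
    rw [fac_length, List.length_nil] at h1
    have := h.1
    omega
  · have h2 := List.length_pos_of_ne_nil hu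
    have h3 := List.length_pos_of_ne_nil hv
    have h4 := congrArg List.length huv
    rw [fac_length, List.length_append] at h4
    obtain ⟨j, hj, hk, hlt⟩ := h.2 u.length h2 (by omega)
    have h5 : fac s i u.length ++ fac s (i + u.length) v.length = u ++ v := by
      rw [← fac_add, ← h4, huv]
    have h6 := (List.append_inj h5 (fac_length _ _ _)).2
    obtain ⟨a, ha⟩ : ∃ a, n = j + (1 + a) := ⟨n - j - 1, by omega⟩
    obtain ⟨b, hb⟩ : ∃ b, v.length = j + (1 + b) := ⟨v.length - j - 1, by omega⟩
    have h7 : fac s i n = fac s i j ++ (s (i + j) :: fac s (i + j + 1) a) := by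
      rw [ha, fac_add, fac_add, fac_one]
      rfl
    have h8 : v = fac s i j ++ (s (i + u.length + j) :: fac s (i + u.length + j + 1) b) := by
      rw [← h6, hb, fac_add, fac_add, fac_one, fac_congr s s (i + u.length) i j hk]
      rfl
    rw [h7, h8]
    exact List.append_left_lt (List.Lex.rel hlt)

theorem red_mono [LinearOrder α] (l w r : List α) (h : Red w) : Red (l ++ (w ++ r)) := by
  obtain ⟨l', v, m, r', hv, hm, rfl⟩ := h
  exact ⟨l ++ l', v, m, r' ++ r, hv, hm, by simp only [List.append_assoc]⟩

theorem np_of_red [LinearOrder α] (s : ℕ → α) (h : ∀ i n, ¬ Red (fac s i n)) : NP1 s ∧ NP2 s ∧ NP3 s := by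
  refine ⟨?_, ?_, ?_⟩
  · rintro ⟨i, n, hL, hk⟩
    refine h i (n + n) ⟨[], fac s i n, [], [], lyn_fac s i n hL, Or.inl rfl, ?_⟩
    rw [fac_add, fac_congr s s (i + n) i n hk]
    simp
  · rintro ⟨i, n, hL, hk⟩
    refine h i (n + (1 + n)) ⟨[], fac s i n, [s (i + n)], [], lyn_fac s i n hL,
      Or.inr (lyn_singleton _), ?_⟩
    rw [fac_add, fac_add, fac_one, fac_congr s s (i + n + 1) i n hk]
    simp
  · rintro ⟨i, n, hL, hk⟩
    refine h i (1 + (n + 1)) ⟨[], [s i], fac s (i + 1) n, [], lyn_singleton _,
      Or.inr (lyn_fac s (i + 1) n hL), ?_⟩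
    rw [fac_add, fac_add, fac_one, fac_one, hk]
    simp

end Pool.Agent.Helper40.KZ
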