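import Pool.Agent.Helper40.KZ.Theta
import Pool.Agent.Helper40.KZ.Words
import Pool.Agent.Helper40.KZ.Subshift

/-!
PROJECT KZ, module KZ-8. Unavoidability.

`exists_minim` for `R = Red` (`red_mono`), `np_of_red`, `no_minim`.
-/

set_option autoImplicit false

namespace Pool.Agent.Helper40.KZ

variable {α : Type*} [LinearOrder α]

theorem unavoidable [Finite α] : ∃ N : ℕ, ∀ w : List α, N ≤ w.length → Red w := by
  by_contra hcon
  have h : ∀ N : ℕ, ∃ w : List α, N ≤ w.length ∧ ¬ Red w := by
    intro N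
    by_contra hN
    apply hcon
    refine ⟨N, fun w hw => ?_⟩
    by_contra hR
    exact hN ⟨w, hw, hR⟩
  obtain ⟨s, hs, hred⟩ := exists_minim (α := α) Red red_mono h
  obtain ⟨h1, h2, h3⟩ := np_of_red s hred
  exact no_minim hs h1 h2 h3

end Pool.Agent.Helper40.KZ
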