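import Pool.Agent.Helper40.KZ.Defs

/-!
PROJECT KZ, module KZ-2. The Lyndon chain and recurrence.

`lyn_step`: let `m ≥ 1`, `LynF s 0 m`. Claim `LynF s 0 (m + Q m + 1)`. Let `0 < r < m + Q m + 1`.
 * `r < m`: the `j` given by `LynF s 0 m`.
 * `r = m + r'`, `r' ≤ Q m`. If there is `k < Q m - r'` with `s (r' + k) ≠ s k`, take the least one: `le r' k` gives `s k < s (r' + k) = s (m + r' + k)` and `j = k` works
   (for `i < k`: `s (m + r' + i) = s (r' + i) = s i`; note `r' + i < Q m` so `s (m + (r' + i)) = s (r' + i)` by `hQ`). Otherwise `s (r' + k) = s k` for all `k < Q m - r'`;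
   `j = Q m - r'` works: `le r' j` gives `s j ≤ s (r' + j) = s (Q m) < s (m + Q m) = s (m + r' + j)`.
`lyn_chain`: induction; `pos Q 0 = 1` and `LynF s 0 1` is trivial.
`recur_pos`: for `p ≥ 1` let `t ≥ 1` be the LEAST `t ≥ 1` with `∀ i < p, s (t + i) = s i` (exists by `Minim.recur`). `pos Q` is strictly increasing with `pos Q 0 = 1`, so there is `k` with
`pos Q k ≤ t < pos Q (k+1)`; write `n = pos Q k`, `r = t - n ≤ Q n`.
 * `r = 0`: if `Q n < p` then `s (n + Q n) = s (Q n)`, against `hQ`. So `p ≤ Q n`: done.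
 * `r > 0`: `m = Q n - r`; for `i < m`, `s (t + i) = s (n + (r + i)) = s (r + i)`. If `p ≤ m`: `∀ i < p, s (r + i) = s i` with `1 ≤ r < t`, against the minimality of `t`. If `m < p`: for `i < m`,
   `s (r + i) = s i`, and `s (r + m) = s (Q n) < s (n + Q n) = s (t + m) = s m`, against `le r m`.
-/

set_option autoImplicit false

namespace Pool.Agent.Helper40.KZ

variable {α : Type*} [LinearOrder α]

theorem lyn_step {s : ℕ → α} (h : Minim s) {Q : ℕ → ℕ} (hQ : IsQ s Q) (m : ℕ) (hm : 1 ≤ m) (hl : LynF s 0 m) :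
    LynF s 0 (m + Q m + 1) := by
  classical
  obtain ⟨hQ1, hQ2⟩ := hQ m hm
  refine ⟨by omega, fun r hr0 hr => ?_⟩
  rcases Nat.lt_or_ge r m with hrm | hrm
  · obtain ⟨j, hj1, hj2, hj3⟩ := hl.2 r hr0 hrm
    exact ⟨j, by omega, hj2, hj3⟩
  · obtain ⟨r', rfl⟩ := Nat.exists_eq_add_of_le hrm
    by_cases hex : ∃ k, k < Q m - r' ∧ s (r' + k) ≠ s k
    · obtain ⟨hk1, hk2⟩ := Nat.find_spec hex
      have hmin : ∀ i, i < Nat.find hex → s (r' + i) = s i := by
        intro i hi
        by_contra hne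
        exact Nat.find_min hex hi ⟨by omega, hne⟩
      have hle := h.le r' (Nat.find hex) hmin
      have hlt : s (Nat.find hex) < s (r' + Nat.find hex) := lt_of_le_of_ne hle (fun e => hk2 e.symm)
      refine ⟨Nat.find hex, by omega, ?_, ?_⟩
      · intro i hi
        have e1 : 0 + (m + r') + i = m + (r' + i) := by omega
        rw [e1, hQ1 (r' + i) (by omega), hmin i hi, Nat.zero_add]
      · have e1 : 0 + (m + r') + Nat.find hex = m + (r' + Nat.find hex) := by omega
        rw [e1, hQ1 (r' + Nat.find hex) (by omega), Nat.zero_add]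
        exact hlt
    · have hall : ∀ k, k < Q m - r' → s (r' + k) = s k := by
        intro k hk
        by_contra hne
        exact hex ⟨k, hk, hne⟩
      have hle := h.le r' (Q m - r') hall
      refine ⟨Q m - r', by omega, ?_, ?_⟩
      · intro i hi
        have e1 : 0 + (m + r') + i = m + (r' + i) := by omega
        rw [e1, hQ1 (r' + i) (by omega), hall i hi, Nat.zero_add]
      · have e1 : 0 + (m + r') + (Q m - r') = m + Q m := by omega
        have e2 : r' + (Q m - r') = Q m := by omega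
        rw [e1, Nat.zero_add]
        rw [e2] at hle
        exact lt_of_le_of_lt hle hQ2

theorem pos_ge_one (Q : ℕ → ℕ) (k : ℕ) : 1 ≤ pos Q k := by
  cases k with
  | zero => simp [pos]
  | succ k => simp only [pos]; omega

theorem lyn_chain {s : ℕ → α} (h : Minim s) {Q : ℕ → ℕ} (hQ : IsQ s Q) (k : ℕ) : LynF s 0 (pos Q k) := by
  induction k with
  | zero =>
    refine ⟨by simp [pos], fun r hr0 hr => ?_⟩
    simp only [pos] at hr
    omega
  | succ k ih => exact lyn_step h hQ (pos Q k) (pos_ge_one Q k) ih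

private theorem pos_lt_succ (Q : ℕ → ℕ) (k : ℕ) : pos Q k < pos Q (k + 1) := by
  simp only [pos]; omega

private theorem pos_ge (Q : ℕ → ℕ) (k : ℕ) : k + 1 ≤ pos Q k := by
  induction k with
  | zero => simp [pos]
  | succ k ih =>
    have := pos_lt_succ Q k
    omega

private theorem exists_block (Q : ℕ → ℕ) (t : ℕ) (ht : 1 ≤ t) :
    ∃ k, pos Q k ≤ t ∧ t < pos Q (k + 1) := by
  classical
  have hex : ∃ k, t < pos Q (k + 1) := ⟨t, by have := pos_ge Q (t + 1); omega⟩
  refine ⟨Nat.find hex, ?_, Nat.find_spec hex⟩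
  rcases hk : Nat.find hex with _ | k
  · simpa [pos] using ht
  · have := Nat.find_min hex (m := k) (by omega)
    omega

theorem recur_pos {s : ℕ → α} (h : Minim s) {Q : ℕ → ℕ} (hQ : IsQ s Q) (p : ℕ) (hp : 1 ≤ p) :
    ∃ k, p ≤ Q (pos Q k) := by
  classical
  have hex := h.recur p
  obtain ⟨ht1, ht2⟩ := Nat.find_spec hex
  have hmin : ∀ r, 1 ≤ r → r < Nat.find hex → ¬ ∀ i < p, s (r + i) = s i :=
    fun r hr1 hr2 hr3 => Nat.find_min hex hr2 ⟨hr1, hr3⟩
  generalize Nat.find hex = t at ht1 ht2 hmin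
  obtain ⟨k, hk1, hk2⟩ := exists_block Q t ht1
  refine ⟨k, ?_⟩
  have hn := pos_ge_one Q k
  simp only [pos] at hk2
  generalize pos Q k = n at hk1 hk2 hn
  obtain ⟨hQ1, hQ2⟩ := hQ n hn
  obtain ⟨r, rfl⟩ := Nat.exists_eq_add_of_le hk1
  by_contra hlt
  have hlt' : Q n < p := by omega
  rcases Nat.eq_zero_or_pos r with hr | hr
  · subst hr
    have := ht2 (Q n) hlt'
    rw [Nat.add_zero] at this
    rw [this] at hQ2
    exact lt_irrefl _ hQ2
  · have hrQ : r ≤ Q n := by omega
    have hshift : ∀ i, i < Q n - r → s (n + r + i) = s (r + i) := by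
      intro i hi
      have e : n + r + i = n + (r + i) := by omega
      rw [e, hQ1 (r + i) (by omega)]
    have hri : ∀ i, i < Q n - r → s (r + i) = s i := by
      intro i hi
      rw [← hshift i hi]
      exact ht2 i (by omega)
    have hle := h.le r (Q n - r) hri
    have e1 : r + (Q n - r) = Q n := by omega
    rw [e1] at hle
    have e2 : n + Q n = n + r + (Q n - r) := by omega
    have h3 := ht2 (Q n - r) (by omega)
    rw [e2, h3] at hQ2
    exact absurd (lt_of_le_of_lt hle hQ2) (lt_irrefl _)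

end Pool.Agent.Helper40.KZ
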