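import Mathlib

/-!
PROJECT KZ (MP_629dac_al), definitions. The Kostrikin-Zelmanov sandwich theorem (characteristic not 2) by an elementary word argument.
Full text of the proof: /team-store/memo_KZ_helper40.md.
-/

set_option autoImplicit false

namespace Pool.Agent.Helper40.KZ

variable {α : Type*}

/-- The factor of length `n` of the infinite word `s` starting at position `i`. -/
def fac (s : ℕ → α) (i n : ℕ) : List α := (List.range' i n).map s

/-- Lyndon words: nonempty and smaller than every proper nonempty suffix. -/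
def Lyn [LinearOrder α] (w : List α) : Prop :=
  w ≠ [] ∧ ∀ u v : List α, u ≠ [] → v ≠ [] → w = u ++ v → w < v

/-- Pointwise form of `Lyn (fac s i n)`: every proper nonempty suffix of the factor is larger at a letter. -/
def LynF [LinearOrder α] (s : ℕ → α) (i n : ℕ) : Prop :=
  0 < n ∧ ∀ r, 0 < r → r < n →
    ∃ j, r + j < n ∧ (∀ k < j, s (i + r + k) = s (i + k)) ∧ s (i + j) < s (i + r + j)

/-- Words with a factor `v m v`, `v` Lyndon, `m` empty or Lyndon. -/
def Red [LinearOrder α] (w : List α) : Prop :=
  ∃ l v m r : List α, Lyn v ∧ (m = [] ∨ Lyn m) ∧ w = l ++ (v ++ (m ++ (v ++ r)))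

/-- Words which are leading words of iterated brackets. -/
inductive SW [LinearOrder α] : List α → Prop
  | letter (a : α) : SW [a]
  | lie (u v : List α) : SW u → SW v → u ++ v < v ++ u → SW (u ++ v)

/-- `s` is lexicographically at most each of its shifts, and every prefix of `s` occurs again. -/
structure Minim [LinearOrder α] (s : ℕ → α) : Prop where
  le : ∀ t j, (∀ i < j, s (t + i) = s i) → s j ≤ s (t + j)
  recur : ∀ n, ∃ t, 1 ≤ t ∧ ∀ i < n, s (t + i) = s i

/-- no factor `v v` with `v` Lyndon -/
def NP1 [LinearOrder α] (s : ℕ → α) : Prop :=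
  ¬ ∃ i n, LynF s i n ∧ ∀ k < n, s (i + n + k) = s (i + k)

/-- no factor `v c v` with `v` Lyndon and `c` a letter -/
def NP2 [LinearOrder α] (s : ℕ → α) : Prop :=
  ¬ ∃ i n, LynF s i n ∧ ∀ k < n, s (i + n + 1 + k) = s (i + k)

/-- no factor `z u z` with `u` Lyndon and `z` a letter -/
def NP3 [LinearOrder α] (s : ℕ → α) : Prop :=
  ¬ ∃ i n, LynF s (i + 1) n ∧ s (i + 1 + n) = s i

/-- `s` and its shift by `t ≥ 1` first differ at position `Q t`, and `s` is smaller there. -/
def IsQ [LinearOrder α] (s : ℕ → α) (Q : ℕ → ℕ) : Prop :=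
  ∀ t, 1 ≤ t → (∀ i < Q t, s (t + i) = s i) ∧ s (Q t) < s (t + Q t)

/-- The chain of positions `n_0 = 1`, `n_(k+1) = n_k + Q n_k + 1`. -/
def pos (Q : ℕ → ℕ) : ℕ → ℕ
  | 0 => 1
  | k + 1 => pos Q k + Q (pos Q k) + 1

/-- The product of operators (elements of an algebra) along a word. -/
def op {A : Type*} [Monoid A] (a : α → A) (w : List α) : A := (w.map a).prod

/-- The span of the operators of words of the same length which are larger than `w`. -/
def Up (K : Type*) {A : Type*} [Field K] [Ring A] [Algebra K A] [LinearOrder α] (a : α → A) (w : List α) :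
    Submodule K A :=
  Submodule.span K {x | ∃ w' : List α, w'.length = w.length ∧ w < w' ∧ x = op a w'}

end Pool.Agent.Helper40.KZ
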