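import Pool.Agent.Helper40.KZ.Defs

/-!
PROJECT KZ, module KZ-3. No factor `v c v`: the common prefixes drop. Here `pos Q (k + 1) = pos Q k + Q (pos Q k) + 1`.

`drop`: write `n = pos Q k`, `q = Q n ≥ 1`. Let `f ≥ 1` be least with `f ≤ q` and `∀ i < f, s (n + q - f + i) = s i` (exists: `f = q` by `hQ`). Put `i₀ = n + q - f`. Claim `LynF s i₀ f`:
let `0 < r < f`. By minimality of `f` (for `f - r`, note `n + q - (f - r) = i₀ + r`) not all `i < f - r` have `s (i₀ + r + i) = s i`; let `j` be the least bad `i`. As `r + i < f`,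
`s (i₀ + r + i) = s (r + i)`, for `i < j` it is `s i = s (i₀ + i)`, and `s (r + j) ≠ s j`, so `le r j` gives `s j < s (r + j)`, i.e. `s (i₀ + j) < s (i₀ + r + j)`, and `r + j < f`. 
If `Q (pos Q (k+1)) ≥ f`: for `i < f`, `s (i₀ + f + 1 + i) = s (n + q + 1 + i) = s (pos Q (k+1) + i) = s i = s (i₀ + i)`: against `NP2`. So `Q (pos Q (k + 1)) < f ≤ q`.
-/

set_option autoImplicit false

namespace Pool.Agent.Helper40.KZ

variable {α : Type*} [LinearOrder α]

private theorem one_le_pos_aux (Q : ℕ → ℕ) (k : ℕ) : 1 ≤ pos Q k := by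
  cases k with
  | zero => exact le_refl 1
  | succ k =>
    show 1 ≤ pos Q k + Q (pos Q k) + 1
    omega

theorem drop {s : ℕ → α} (h : Minim s) (h2 : NP2 s) {Q : ℕ → ℕ} (hQ : IsQ s Q) (k : ℕ) (hq : 1 ≤ Q (pos Q k)) :
    Q (pos Q (k + 1)) < Q (pos Q k) := by
  classical
  have hn1 : 1 ≤ pos Q k := one_le_pos_aux Q k
  have hsucc : pos Q (k + 1) = pos Q k + Q (pos Q k) + 1 := rfl
  have hsucc1 : 1 ≤ pos Q (k + 1) := one_le_pos_aux Q (k + 1)
  have hQn := (hQ (pos Q k) hn1).1
  have hQs := (hQ (pos Q (k + 1)) hsucc1).1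
  generalize hn : pos Q k = n at *
  generalize hqq : Q n = q at *
  have hex : ∃ f, 1 ≤ f ∧ f ≤ q ∧ ∀ i < f, s (n + q - f + i) = s i := by
    refine ⟨q, hq, le_refl q, ?_⟩
    intro i hi
    have e : n + q - q + i = n + i := by omega
    rw [e]
    exact hQn i hi
  obtain ⟨f, ⟨hf1, hfq, hfs⟩, hmin⟩ : ∃ f, (1 ≤ f ∧ f ≤ q ∧ ∀ i < f, s (n + q - f + i) = s i) ∧
      ∀ g, g < f → ¬ (1 ≤ g ∧ g ≤ q ∧ ∀ i < g, s (n + q - g + i) = s i) :=
    ⟨Nat.find hex, Nat.find_spec hex, fun g hg => Nat.find_min hex hg⟩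
  by_contra hcon
  have hge : f ≤ Q (pos Q (k + 1)) := by omega
  apply h2
  refine ⟨n + q - f, f, ⟨by omega, ?_⟩, ?_⟩
  · intro r hr0 hrf
    have hbad : ∃ i, i < f - r ∧ s (n + q - f + r + i) ≠ s i := by
      by_contra hno
      apply hmin (f - r) (by omega)
      refine ⟨by omega, by omega, ?_⟩
      intro i hi
      by_contra hne
      apply hno
      refine ⟨i, hi, ?_⟩
      have e : n + q - f + r + i = n + q - (f - r) + i := by omega
      rw [e]
      exact hne
    obtain ⟨j, ⟨hj1, hj2⟩, hjmin⟩ : ∃ j, (j < f - r ∧ s (n + q - f + r + j) ≠ s j) ∧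
        ∀ g, g < j → ¬ (g < f - r ∧ s (n + q - f + r + g) ≠ s g) :=
      ⟨Nat.find hbad, Nat.find_spec hbad, fun g hg => Nat.find_min hbad hg⟩
    have hshift : ∀ i, r + i < f → s (n + q - f + r + i) = s (r + i) := by
      intro i hi
      have e : n + q - f + r + i = n + q - f + (r + i) := by omega
      rw [e]
      exact hfs (r + i) hi
    have hlow : ∀ i, i < j → s (n + q - f + r + i) = s i := by
      intro i hi
      by_contra hne
      exact hjmin i hi ⟨by omega, hne⟩
    refine ⟨j, by omega, ?_, ?_⟩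
    · intro i hi
      rw [hlow i hi, hfs i (by omega)]
    · have hle : s j ≤ s (r + j) := by
        apply h.le r j
        intro i hi
        rw [← hshift i (by omega)]
        exact hlow i hi
      have hne : s j ≠ s (r + j) := by
        intro he
        apply hj2
        rw [hshift j (by omega)]
        exact he.symm
      rw [hfs j (by omega), hshift j (by omega)]
      exact lt_of_le_of_ne hle hne
  · intro i hi
    have e : n + q - f + f + 1 + i = pos Q (k + 1) + i := by
      rw [hsucc]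
      omega
    rw [e, hQs i (by omega), hfs i hi]

end Pool.Agent.Helper40.KZ
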