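import Pool.Agent.Helper40.KZ.Defs

/-!
PROJECT KZ, module KZ-12. Vanishing of all operator words of length `N` in the generators makes the Lie algebra nilpotent.

`ad_mem_span`: if `lieSpan K L (range a) = ⊤` then every `ad z` is in the span of the operators of nonempty words: `LieSubalgebra.lieSpan_induction` (or show that the set of `z` with this property is a Lie subalgebra:
`ad ⁅x, y⁆ = ad x ad y - ad y ad x`, products of words are words).
`lcs_le`: by induction on `k`, `lowerCentralSeries K L L k` is contained in the span of all `op w y` with `w.length = k`, `y : L` (`LieModule.lowerCentralSeries_succ`, `LieSubmodule.lieIdeal_oper_eq_linear_span`: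
`⁅z, op w y⁆ = (ad z) (op w y)`, `ad z` is a combination of operators of nonempty words `u`, and `op (u ++ w) y = op (first k+1 letters) (op (remaining letters) y)`).
`nilp_of_op_zero`: `lowerCentralSeries K L L N = ⊥`.
-/

set_option autoImplicit false

namespace Pool.Agent.Helper40.KZ

variable {α K L : Type*} [Field K] [LieRing L] [LieAlgebra K L]

private theorem gen_op_append {A : Type*} [Monoid A] (a : α → A) (u v : List α) :
    op a (u ++ v) = op a u * op a v := by
  simp [op]

private theorem gen_mul (f : α → Module.End K L) (x y : Module.End K L)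
    (hx : x ∈ Submodule.span K {x | ∃ w : List α, w ≠ [] ∧ x = op f w})
    (hy : y ∈ Submodule.span K {x | ∃ w : List α, w ≠ [] ∧ x = op f w}) :
    x * y ∈ Submodule.span K {x | ∃ w : List α, w ≠ [] ∧ x = op f w} := by
  have h := Submodule.mul_mem_mul hx hy
  rw [Submodule.span_mul_span] at h
  refine Submodule.span_mono ?_ h
  rintro _ ⟨_, ⟨w, hw, rfl⟩, _, ⟨v, hv, rfl⟩, rfl⟩
  exact ⟨w ++ v, by simp [hw], (gen_op_append f w v).symm⟩

private theorem gen_step (f : α → Module.End K L) (k : ℕ) (x : Module.End K L) (n : L)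
    (hx : x ∈ Submodule.span K {x | ∃ w : List α, w ≠ [] ∧ x = op f w})
    (hn : n ∈ Submodule.span K {x | ∃ (w : List α) (y : L), w.length = k ∧ x = op f w y}) :
    x n ∈ Submodule.span K {x | ∃ (w : List α) (y : L), w.length = k + 1 ∧ x = op f w y} := by
  induction hx using Submodule.span_induction with
  | mem x hx =>
    obtain ⟨u, hu, rfl⟩ := hx
    induction hn using Submodule.span_induction with
    | mem n hn =>
      obtain ⟨w, y, hw, rfl⟩ := hn
      refine Submodule.subset_span ⟨(u ++ w).take (k + 1), op f ((u ++ w).drop (k + 1)) y, ?_, ?_⟩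
      · have h1 : 0 < u.length := List.length_pos_of_ne_nil hu
        rw [List.length_take, List.length_append]
        omega
      · have h1 : op f u (op f w y) = op f (u ++ w) y := by rw [gen_op_append]; rfl
        have h2 : op f (u ++ w) = op f ((u ++ w).take (k + 1)) * op f ((u ++ w).drop (k + 1)) := by
          rw [← gen_op_append, List.take_append_drop]
        rw [h1, h2]
        rfl
    | zero => rw [map_zero]; exact zero_mem _
    | add n m _ _ h1 h2 => rw [map_add]; exact add_mem h1 h2
    | smul c n _ h1 => rw [map_smul]; exact Submodule.smul_mem _ _ h1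
  | zero => exact zero_mem _
  | add x y _ _ hx hy => exact add_mem hx hy
  | smul c x _ hx => exact Submodule.smul_mem _ _ hx

theorem ad_mem_span (a : α → L) (hg : LieSubalgebra.lieSpan K L (Set.range a) = ⊤) (z : L) :
    LieAlgebra.ad K L z ∈ Submodule.span K
      {x | ∃ w : List α, w ≠ [] ∧ x = op (fun i => LieAlgebra.ad K L (a i)) w} := by
  obtain ⟨f, hf⟩ : ∃ f : α → Module.End K L, f = fun i => LieAlgebra.ad K L (a i) := ⟨_, rfl⟩
  rw [← hf]
  obtain ⟨S, hS⟩ : ∃ S : LieSubalgebra K L, ∀ z, z ∈ S ↔ LieAlgebra.ad K L z ∈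
      Submodule.span K {x | ∃ w : List α, w ≠ [] ∧ x = op f w} := by
    refine ⟨{ (Submodule.span K {x | ∃ w : List α, w ≠ [] ∧ x = op f w}).comap
      (LieAlgebra.ad K L : L →ₗ[K] Module.End K L) with
      lie_mem' := ?_ }, fun z => Iff.rfl⟩
    intro x y hx hy
    have hx' : LieAlgebra.ad K L x ∈
      Submodule.span K {x | ∃ w : List α, w ≠ [] ∧ x = op f w} := hx
    have hy' : LieAlgebra.ad K L y ∈
      Submodule.span K {x | ∃ w : List α, w ≠ [] ∧ x = op f w} := hy
    change LieAlgebra.ad K L ⁅x, y⁆ ∈
      Submodule.span K {x | ∃ w : List α, w ≠ [] ∧ x = op f w}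
    have h : LieAlgebra.ad K L ⁅x, y⁆ = LieAlgebra.ad K L x * LieAlgebra.ad K L y -
        LieAlgebra.ad K L y * LieAlgebra.ad K L x := by
      ext n
      simp
    rw [h]
    exact sub_mem (gen_mul f _ _ hx' hy') (gen_mul f _ _ hy' hx')
  have h1 : LieSubalgebra.lieSpan K L (Set.range a) ≤ S := by
    rw [LieSubalgebra.lieSpan_le]
    rintro _ ⟨i, rfl⟩
    refine (hS (a i)).2 (Submodule.subset_span ⟨[i], by simp, ?_⟩)
    rw [hf]
    simp [op]
  rw [hg] at h1
  exact (hS z).1 (h1 (LieSubalgebra.mem_top z))

theorem lcs_le (a : α → L) (hg : LieSubalgebra.lieSpan K L (Set.range a) = ⊤) (k : ℕ) (z : L)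
    (hz : z ∈ LieModule.lowerCentralSeries K L L k) :
    z ∈ Submodule.span K
      {x | ∃ (w : List α) (y : L), w.length = k ∧ x = op (fun i => LieAlgebra.ad K L (a i)) w y} := by
  induction k generalizing z with
  | zero => exact Submodule.subset_span ⟨[], z, rfl, by simp [op]⟩
  | succ k ih =>
    rw [LieModule.lowerCentralSeries_succ] at hz
    have h1 : z ∈ (⁅(⊤ : LieIdeal K L), LieModule.lowerCentralSeries K L L k⁆ :
        LieSubmodule K L L).toSubmodule := hz
    rw [LieSubmodule.lieIdeal_oper_eq_linear_span'] at h1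
    refine Submodule.span_le.2 ?_ h1
    rintro _ ⟨x, -, n, hn, rfl⟩
    have h2 := gen_step (fun i => LieAlgebra.ad K L (a i)) k (LieAlgebra.ad K L x) n
      (ad_mem_span a hg x) (ih n hn)
    exact h2

theorem nilp_of_op_zero (a : α → L) (hg : LieSubalgebra.lieSpan K L (Set.range a) = ⊤) (N : ℕ)
    (h : ∀ w : List α, w.length = N → op (fun i => LieAlgebra.ad K L (a i)) w = 0) :
    LieModule.lowerCentralSeries K L L N = ⊥ := by
  rw [eq_bot_iff]
  intro z hz
  have h1 := lcs_le a hg N z hz
  have h2 : Submodule.span K {x | ∃ (w : List α) (y : L), w.length = N ∧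
      x = op (fun i => LieAlgebra.ad K L (a i)) w y} ≤ ⊥ := by
    rw [Submodule.span_le]
    rintro _ ⟨w, y, hw, rfl⟩
    rw [h w hw]
    exact zero_mem _
  have h3 := h2 h1
  rw [Submodule.mem_bot] at h3
  rw [h3]
  exact zero_mem _

end Pool.Agent.Helper40.KZ
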