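import Pool.Agent.Helper40.KZ.Unavoid
import Pool.Agent.Helper40.KZ.Vanish
import Pool.Agent.Helper40.KZ.Gen

/-!
PROJECT KZ, module KZ-13. The Kostrikin-Zelmanov theorem.

`kz_bound`: `unavoidable` for `α = Fin d` gives `N`; `op_zero`, `nilp_of_op_zero`. `N` depends only on `d`.
`kz`: for a finite set `S` with `lieSpan K L S = ⊤`: `S = Set.range a` for some `a : Fin d → L` (`Set.Finite`, `Finset.equivFin`), `kz_bound`; `LieModule.isNilpotent_iff` / `LieRing.IsNilpotent L` is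
`LieModule.IsNilpotent L L` (over `ℤ`; see `LieModule.isNilpotent_iff_int` and `LieAlgebra.isNilpotent_iff`-like lemmas).
-/

set_option autoImplicit false

namespace Pool.Agent.Helper40.KZ

theorem kz_bound.{u, v} (d : ℕ) : ∃ N : ℕ, ∀ (K : Type u) (L : Type v) [Field K] [LieRing L] [LieAlgebra K L], (2 : K) ≠ 0 →
    ∀ a : Fin d → L, (∀ i, LieAlgebra.ad K L (a i) * LieAlgebra.ad K L (a i) = 0) →
      LieSubalgebra.lieSpan K L (Set.range a) = ⊤ → LieModule.lowerCentralSeries K L L N = ⊥ := by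
  obtain ⟨N, hN⟩ := unavoidable (α := Fin d)
  refine ⟨N, ?_⟩
  intro K L _ _ _ h2 a ha hg
  exact nilp_of_op_zero a hg N fun w hw =>
    op_zero h2 a ha N (fun w' hw' => hN w' hw'.ge) w hw

variable {K L : Type*} [Field K] [LieRing L] [LieAlgebra K L]

theorem kz (h2 : (2 : K) ≠ 0) (S : Set L) (hS : S.Finite)
    (ha : ∀ c ∈ S, LieAlgebra.ad K L c * LieAlgebra.ad K L c = 0)
    (hg : LieSubalgebra.lieSpan K L S = ⊤) : ∃ N : ℕ, LieModule.lowerCentralSeries K L L N = ⊥ := by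
  obtain ⟨d, a, _, hr⟩ := hS.fin_param
  obtain ⟨N, hN⟩ := kz_bound d
  refine ⟨N, hN K L h2 a (fun i => ha _ ?_) (by rw [hr]; exact hg)⟩
  rw [← hr]
  exact Set.mem_range_self i

end Pool.Agent.Helper40.KZ
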