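import Pool.Agent.Helper40.KZ.Defs

/-!
PROJECT KZ, module KZ-9. Sandwiches of a Lie algebra over a field of characteristic not 2.

`sand_mid`: `ad ⁅c, ⁅c, x⁆⁆ = 0` as `(ad c)^2 = 0`, and `ad ⁅c, ⁅c, x⁆⁆ = c c x - 2 c x c + x c c = - 2 c x c` (write `c` for `ad c`; `LieAlgebra.ad` is a Lie homomorphism, `LieRing.of_associative_ring_bracket`); divide by `2`.
`sand_lie`: `(c d - d c)^2 = c d c d - c d d c - d c c d + d c d c = 0` by `sand_mid` and the squares.
-/

set_option autoImplicit false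

namespace Pool.Agent.Helper40.KZ

variable {K L : Type*} [Field K] [LieRing L] [LieAlgebra K L]

private theorem ad_lie' (x y : L) : LieAlgebra.ad K L ⁅x, y⁆ =
    LieAlgebra.ad K L x * LieAlgebra.ad K L y - LieAlgebra.ad K L y * LieAlgebra.ad K L x := by
  refine LinearMap.ext fun z => ?_
  simp only [LieAlgebra.ad_apply, LinearMap.sub_apply, Module.End.mul_apply]
  exact lie_lie x y z

theorem sand_mid (h2 : (2 : K) ≠ 0) (c x : L) (hc : LieAlgebra.ad K L c * LieAlgebra.ad K L c = 0) :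
    LieAlgebra.ad K L c * LieAlgebra.ad K L x * LieAlgebra.ad K L c = 0 := by
  have h0 : ⁅c, ⁅c, x⁆⁆ = (0 : L) := by
    have h1 := LinearMap.congr_fun hc x
    simpa using h1
  have h1 := ad_lie' (K := K) c ⁅c, x⁆
  rw [ad_lie' (K := K) c x] at h1
  have h5 : LieAlgebra.ad K L (0 : L) = 0 := map_zero _
  rw [h0, h5] at h1
  generalize LieAlgebra.ad K L c = C at hc h1 ⊢
  generalize LieAlgebra.ad K L x = X at h1 ⊢
  have h3 : C * (C * X - X * C) - (C * X - X * C) * C =
      C * C * X - (C * X * C + C * X * C) + X * (C * C) := by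
    noncomm_ring
  rw [h3, hc, zero_mul, mul_zero, add_zero, zero_sub, eq_comm, neg_eq_zero, ← two_smul K] at h1
  exact (smul_eq_zero.1 h1).resolve_left h2

theorem sand_lie (h2 : (2 : K) ≠ 0) (c d : L) (hc : LieAlgebra.ad K L c * LieAlgebra.ad K L c = 0)
    (hd : LieAlgebra.ad K L d * LieAlgebra.ad K L d = 0) :
    LieAlgebra.ad K L ⁅c, d⁆ * LieAlgebra.ad K L ⁅c, d⁆ = 0 := by
  have h1 := sand_mid h2 c d hc
  have h3 := sand_mid h2 d c hd
  rw [ad_lie' (K := K) c d]
  generalize LieAlgebra.ad K L c = C at hc h1 h3 ⊢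
  generalize LieAlgebra.ad K L d = D at hd h1 h3 ⊢
  have h4 : (C * D - D * C) * (C * D - D * C) =
      C * D * C * D - C * (D * D) * C - D * (C * C) * D + D * C * D * C := by
    noncomm_ring
  rw [h4, h1, h3, hc, hd]
  simp

end Pool.Agent.Helper40.KZ
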