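import Pool.Agent.Helper40.KZ.Defs

/-!
PROJECT KZ, module KZ-1. The least word of a minimal subshift without squares of Lyndon factors is strictly smaller than its shifts.

PROOF. `strict_aux` (any `s` with `Minim.le`): if `s` is not smaller at a letter than its shift by `t`, then, by strong induction on `j`, `s (t + j) = s j` for all `j`
(first difference at `j`: `le` gives `s j ≤ s (t + j)`, not equal, so smaller).
`strict`: suppose some `t ≥ 1` has `∀ j, s (t + j) = s j`, take the least such `t ≥ 1`. Claim `LynF s 0 t`. Let `0 < r < t`. By minimality of `t` and `strict_aux` there is `j` with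
`∀ k < j, s (r + k) = s k` and `s j < s (r + j)`. If `r + j < t` this is what `LynF` wants. Otherwise put `m = r + j - t`, so `j = (t - r) + m`, `s (r + j) = s (t + m) = s m`.
For `i < m`: `s (t - r + i) = s (r + (t - r + i))` (as `t - r + i < j`) `= s (t + i) = s i`. So `le (t - r) m` gives `s m ≤ s (t - r + m) = s j < s (r + j) = s m`, contradiction.
`LynF s 0 t` together with `s (0 + t + k) = s (0 + k)` contradicts `NP1`.
`exists_Q`: choose `j` for each `t ≥ 1` (value `0` for `t = 0`).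
`Q_one`: `NP1` with `i = 0`, `n = 1` (`LynF s 0 1` is trivial) gives `s 1 ≠ s 0`, so `Q 1 = 0` (if `0 < Q 1` then `s (1 + 0) = s 0`).
-/

set_option autoImplicit false

namespace Pool.Agent.Helper40.KZ

variable {α : Type*} [LinearOrder α]

theorem strict_aux {s : ℕ → α} (h : Minim s) (t : ℕ)
    (hn : ¬ ∃ j, (∀ i < j, s (t + i) = s i) ∧ s j < s (t + j)) : ∀ j, s (t + j) = s j := by
  intro j
  induction j using Nat.strong_induction_on with
  | _ j ih =>
    rcases (h.le t j ih).lt_or_eq with hlt | heq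
    · exact absurd ⟨j, ih, hlt⟩ hn
    · exact heq.symm

theorem strict {s : ℕ → α} (h : Minim s) (h1 : NP1 s) (t : ℕ) (ht : 1 ≤ t) :
    ∃ j, (∀ i < j, s (t + i) = s i) ∧ s j < s (t + j) := by
  classical
  by_contra hn
  have hP : ∃ t, 1 ≤ t ∧ ∀ j, s (t + j) = s j := ⟨t, ht, strict_aux h t hn⟩
  obtain ⟨t0, ⟨ht0, hper⟩, hmin⟩ : ∃ t0, (1 ≤ t0 ∧ ∀ j, s (t0 + j) = s j) ∧
      ∀ r, r < t0 → ¬ (1 ≤ r ∧ ∀ j, s (r + j) = s j) :=
    ⟨Nat.find hP, Nat.find_spec hP, fun r hr => Nat.find_min hP hr⟩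
  refine h1 ⟨0, t0, ⟨ht0, ?_⟩, ?_⟩
  · intro r hr hrt
    have hex : ∃ j, (∀ i < j, s (r + i) = s i) ∧ s j < s (r + j) := by
      by_contra hn2
      exact hmin r hrt ⟨hr, strict_aux h r hn2⟩
    obtain ⟨j, hj1, hj2⟩ := hex
    by_cases hlt : r + j < t0
    · refine ⟨j, hlt, ?_, ?_⟩
      · intro k hk
        rw [zero_add, zero_add]
        exact hj1 k hk
      · rw [zero_add, zero_add]
        exact hj2
    · exfalso
      obtain ⟨m, hm⟩ : ∃ m, r + j = t0 + m := ⟨r + j - t0, by omega⟩
      have hjm : j = (t0 - r) + m := by omega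
      have e1 : s (r + j) = s m := by rw [hm, hper]
      have e2 : ∀ i < m, s (t0 - r + i) = s i := by
        intro i hi
        have h3 := hj1 (t0 - r + i) (by omega)
        rw [← h3, show r + (t0 - r + i) = t0 + i by omega, hper]
      have e3 := h.le (t0 - r) m e2
      rw [← hjm] at e3
      rw [e1] at hj2
      exact absurd hj2 (not_lt.2 e3)
  · intro k _
    rw [zero_add, zero_add]
    exact hper k

theorem exists_Q {s : ℕ → α} (h : Minim s) (h1 : NP1 s) : ∃ Q : ℕ → ℕ, IsQ s Q := by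
  classical
  refine ⟨fun t => if ht : 1 ≤ t then (strict h h1 t ht).choose else 0, ?_⟩
  intro t ht
  simp only [dif_pos ht]
  exact (strict h h1 t ht).choose_spec

theorem Q_one {s : ℕ → α} (h1 : NP1 s) {Q : ℕ → ℕ} (hQ : IsQ s Q) : Q 1 = 0 := by
  by_contra hne
  have h2 : s (1 + 0) = s 0 := (hQ 1 le_rfl).1 0 (Nat.pos_of_ne_zero hne)
  refine h1 ⟨0, 1, ⟨one_pos, ?_⟩, ?_⟩
  · intro r hr hr1
    omega
  · intro k hk
    obtain rfl : k = 0 := by omega
    simpa using h2

end Pool.Agent.Helper40.KZ
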