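import Pool.Agent.Helper40.KZ.Strict
import Pool.Agent.Helper40.KZ.Chain
import Pool.Agent.Helper40.KZ.Drop

/-!
PROJECT KZ, module KZ-4. No factor `z u z`: a long common prefix is preceded by a nonempty one; contradiction.

`theta`: for every letter `z` for which there is `i` with `Q (pos Q i) = 0` and `s (pos Q i) = z` choose such an `i z`; `Θ = 1 + ∑ z, pos Q (i z)` (finite alphabet; junk value `0` of `i z` for
the other letters), so `1 ≤ Θ` and `pos Q (i z) + 1 ≤ Θ`.
Suppose `Θ ≤ Q (pos Q (k+1))` and `Q (pos Q k) = 0`. Let `z = s (pos Q k)`, `u = pos Q (i z)`, `N = pos Q (k+1) = pos Q k + 1`. `hQ N`: `s (N + i) = s i` for `i < Q N`, and `u + 1 ≤ Θ ≤ Q N`. So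
`s (N + u) = s u = z = s (pos Q k)`, and `LynF s N u` follows from `lyn_chain (i z) : LynF s 0 u` (all letters of `LynF s N u` are at positions `N + i`, `i < u`). With `i = pos Q k`, `n = u` this is a
factor `z u z`: against `NP3`.
`no_minim`: `Q` from `exists_Q`; `Θ` from `theta`; by induction on `k`: `Q (pos Q k) < Θ`: for `k = 0` `Q 1 = 0` (`Q_one`); if `Θ ≤ Q (pos Q (k+1))` then `1 ≤ Q (pos Q k)` by `theta`, so
`Q (pos Q (k+1)) < Q (pos Q k) < Θ` by `drop`. This contradicts `recur_pos` with `p = Θ`.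
-/

set_option autoImplicit false

namespace Pool.Agent.Helper40.KZ

variable {α : Type*} [LinearOrder α]

theorem theta [Finite α] {s : ℕ → α} (h : Minim s) (h3 : NP3 s) {Q : ℕ → ℕ} (hQ : IsQ s Q) :
    ∃ Θ : ℕ, 1 ≤ Θ ∧ ∀ k, Θ ≤ Q (pos Q (k + 1)) → 1 ≤ Q (pos Q k) := by
  classical
  haveI : Fintype α := Fintype.ofFinite α
  set iz : α → ℕ := fun z =>
    if hz : ∃ i, Q (pos Q i) = 0 ∧ s (pos Q i) = z then hz.choose else 0 with hiz
  refine ⟨1 + ∑ z, pos Q (iz z), by omega, fun k hk => ?_⟩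
  by_contra hcon
  have h0 : Q (pos Q k) = 0 := by omega
  have hex : ∃ i, Q (pos Q i) = 0 ∧ s (pos Q i) = s (pos Q k) := ⟨k, h0, rfl⟩
  set u := pos Q (iz (s (pos Q k))) with hu
  have hsu : s u = s (pos Q k) := by
    have h1 : iz (s (pos Q k)) = hex.choose := by
      rw [hiz]
      simp only
      rw [dif_pos hex]
    rw [hu, h1]
    exact hex.choose_spec.2
  have hle : u ≤ ∑ z, pos Q (iz z) :=
    Finset.single_le_sum (f := fun z => pos Q (iz z)) (fun z _ => Nat.zero_le _)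
      (Finset.mem_univ (s (pos Q k)))
  have hN : pos Q (k + 1) = pos Q k + 1 := by
    show pos Q k + Q (pos Q k) + 1 = _
    rw [h0]
  rw [hN] at hk
  have hq := (hQ (pos Q k + 1) (by omega)).1
  have hl := lyn_chain h hQ (iz (s (pos Q k)))
  rw [← hu] at hl
  apply h3
  refine ⟨pos Q k, u, ⟨hl.1, fun r hr0 hru => ?_⟩, ?_⟩
  · obtain ⟨j, hj1, hj2, hj3⟩ := hl.2 r hr0 hru
    refine ⟨j, hj1, fun i hi => ?_, ?_⟩
    · have h1 := hj2 i hi
      rw [Nat.zero_add, Nat.zero_add] at h1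
      rw [Nat.add_assoc (pos Q k + 1) r i, hq (r + i) (by omega), hq i (by omega)]
      exact h1
    · rw [Nat.zero_add, Nat.zero_add] at hj3
      rw [Nat.add_assoc (pos Q k + 1) r j, hq (r + j) (by omega), hq j (by omega)]
      exact hj3
  · rw [hq u (by omega)]
    exact hsu

theorem no_minim [Finite α] {s : ℕ → α} (h : Minim s) (h1 : NP1 s) (h2 : NP2 s) (h3 : NP3 s) : False := by
  obtain ⟨Q, hQ⟩ := exists_Q h h1
  obtain ⟨Θ, hΘ, hth⟩ := theta h h3 hQ
  have key : ∀ k, Q (pos Q k) < Θ := by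
    intro k
    induction k with
    | zero =>
      have h4 : Q (pos Q 0) = 0 := Q_one h1 hQ
      omega
    | succ k ih =>
      by_contra hcon
      have h5 := hth k (by omega)
      have h6 := drop h h2 hQ k h5
      omega
  obtain ⟨k, hk⟩ := recur_pos h hQ Θ hΘ
  have := key k
  omega

end Pool.Agent.Helper40.KZ
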